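import Mathlib
import Pool.Agent.U766.OP.Same
import Pool.Agent.U766.PW.Sec
import Pool.Agent.Q278.KT.Fin

/-!
# Hosts: families which are regular for the relatively dense subsets of a set of integers
-/

set_option autoImplicit false

namespace Pool.Agent.U766.HO

open Finset Filter Topology
open Pool.Agent.U766.OP
open Pool.Agent.R527.LV (pat box mem_box card_box)
open Pool.Agent.H387R2.Uni (CT CT_nonneg)

open Classical in
/-- the elements of `S` in `[N, 2 N]` -/
noncomputable def sec (S : Set ℕ) (N : ℕ) : Finset ℕ := (Icc N (2 * N)).filter (fun n => n ∈ S)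

/-- at least `N ^ 0.612` elements in `[N, 2 N]`, `N` large -/
def Thick (S : Set ℕ) : Prop := ∀ᶠ N : ℕ in atTop, (N : ℝ) ^ (0.612 : ℝ) ≤ ((sec S N).card : ℝ)

/-- every subset of `S ∩ [N, 2 N]` with the relative density `ρ`, `N` large, contains a member of the family -/
def Reg (S : Set ℕ) (ρ : ℝ) (𝓕 : Set (Finset ℕ)) : Prop :=
  ∃ N₀ : ℕ, ∀ N : ℕ, N₀ ≤ N → ∀ A : Finset ℕ, A ⊆ sec S N → ρ * ((sec S N).card : ℝ) ≤ (A.card : ℝ) → ∃ F ∈ 𝓕, F ⊆ A

lemma mem_sec {S : Set ℕ} {N n : ℕ} : n ∈ sec S N ↔ (N ≤ n ∧ n ≤ 2 * N) ∧ n ∈ S := by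
  classical
  unfold sec
  rw [mem_filter, mem_Icc]

lemma sec_univ (N : ℕ) : sec Set.univ N = Icc N (2 * N) := by
  ext n
  rw [mem_sec, mem_Icc]
  exact ⟨fun h => h.1, fun h => ⟨h, Set.mem_univ n⟩⟩

lemma card_univ (N : ℕ) : ((sec Set.univ N).card : ℝ) = N + 1 := by
  rw [sec_univ, Nat.card_Icc, show 2 * N + 1 - N = N + 1 by omega]
  push_cast
  ring

theorem thick_univ : Thick Set.univ := by
  filter_upwards [eventually_ge_atTop 1] with N hN
  have hN1 : (1 : ℝ) ≤ N := by exact_mod_cast hN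
  rw [card_univ]
  calc (N : ℝ) ^ (0.612 : ℝ) ≤ (N : ℝ) ^ (1 : ℝ) := Real.rpow_le_rpow_of_exponent_le hN1 (by norm_num)
    _ = N := Real.rpow_one _
    _ ≤ N + 1 := by linarith

theorem reg_univ (k : ℕ) (ρ : ℝ) (hρ : 0 < ρ) :
    Reg Set.univ ρ {F | ∃ a d : ℕ, 1 ≤ d ∧ F = (range k).image (fun j => a + j * d)} := by
  obtain ⟨N₀, h⟩ := ap_regular k ρ hρ
  refine ⟨N₀, fun N hN A hA hAc => h N hN A (by rwa [sec_univ] at hA) ?_⟩
  rw [card_univ] at hAc
  nlinarith

lemma pos_zero (g : Fin 0 → ℕ) (a H : ℕ) : Pos g a H = primesIn a H := by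
  classical
  unfold Pos primesIn
  ext q
  rw [mem_filter, mem_filter]
  constructor
  · rintro ⟨h1, n, rfl, -, -⟩
    exact ⟨h1, pr_prime n⟩
  · rintro ⟨h1, h2⟩
    exact ⟨h1, _, pr_count h2, by rw [Nat.add_zero, pr_count h2]; exact (mem_Ioc.1 h1).2, fun i => i.elim0⟩

/-- many primes in `(N, 2 N]` -/
theorem primes_many : ∃ c : ℝ, 0 < c ∧ ∀ᶠ N : ℕ in atTop, c * N / Real.log N ≤ ((primesIn N N).card : ℝ) := by
  obtain ⟨c1, δ, hc1, hδ, hδ1, hall⟩ := all_long Pool.Agent.Q278.KT.mainp_043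
    (by norm_num) (by norm_num) (by norm_num) (by norm_num)
  refine ⟨c1, hc1, ?_⟩
  filter_upwards [tendsto_natCast_atTop_atTop.eventually hall, eventually_ge_atTop 1] with N h hN
  have hN1 : (1 : ℝ) ≤ N := by exact_mod_cast hN
  have h1 := h N N le_rfl (by linarith) (by
    calc (N : ℝ) ^ (1 - 0.43 + 0.045 - δ) ≤ (N : ℝ) ^ (1 : ℝ) :=
          Real.rpow_le_rpow_of_exponent_le hN1 (by norm_num; linarith)
      _ = N := Real.rpow_one _)
  rwa [pic_nat] at h1

lemma primesIn_sec (N : ℕ) : primesIn N N ⊆ sec {p | p.Prime} N := by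
  intro q hq
  unfold primesIn at hq
  rw [mem_filter, mem_Ioc] at hq
  rw [mem_sec]
  exact ⟨by omega, hq.2⟩

lemma sec_primes_le (N : ℕ) : (sec {p | p.Prime} N).card ≤ (primesIn N N).card + 1 := by
  classical
  have h : sec {p | p.Prime} N ⊆ insert N (primesIn N N) := by
    intro q hq
    rw [mem_sec] at hq
    rw [mem_insert]
    unfold primesIn
    rw [mem_filter, mem_Ioc]
    rcases eq_or_ne q N with h | h
    · exact Or.inl h
    · exact Or.inr ⟨by omega, hq.2⟩
  exact (card_le_card h).trans (card_insert_le _ _)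

theorem thick_primes : Thick {p | p.Prime} := by
  obtain ⟨c, hc, h⟩ := primes_many
  have hlog : ∀ᶠ N : ℕ in atTop, Real.log N ≤ c * (N : ℝ) ^ (0.388 : ℝ) := by
    have h1 := (isLittleO_log_rpow_atTop (show (0 : ℝ) < 0.388 by norm_num)).bound hc
    filter_upwards [tendsto_natCast_atTop_atTop.eventually h1, eventually_ge_atTop 1] with N h2 hN
    have hN1 : (1 : ℝ) ≤ N := by exact_mod_cast hN
    rwa [Real.norm_of_nonneg (Real.log_nonneg hN1), Real.norm_of_nonneg (by positivity)] at h2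
  filter_upwards [h, hlog, eventually_ge_atTop 3] with N h1 h2 h3
  have hN3 : (3 : ℝ) ≤ N := by exact_mod_cast h3
  have hl : 0 < Real.log N := Real.log_pos (by linarith)
  have hN0 : (0 : ℝ) < N := by linarith
  calc (N : ℝ) ^ (0.612 : ℝ) ≤ c * N / Real.log N := by
        rw [le_div_iff₀ hl]
        calc (N : ℝ) ^ (0.612 : ℝ) * Real.log N ≤ (N : ℝ) ^ (0.612 : ℝ) * (c * (N : ℝ) ^ (0.388 : ℝ)) := by gcongr
          _ = c * ((N : ℝ) ^ (0.612 : ℝ) * (N : ℝ) ^ (0.388 : ℝ)) := by ring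
          _ = c * N := by
            rw [← Real.rpow_add hN0]
            norm_num
    _ ≤ ((primesIn N N).card : ℝ) := h1
    _ ≤ _ := by exact_mod_cast card_le_card (primesIn_sec N)

/-- progressions with small differences in the relatively dense sets of primes -/
theorem reg_primes (k : ℕ) (ρ : ℝ) (hρ : 0 < ρ) : ∃ B : ℕ,
    Reg {p | p.Prime} ρ {F | ∃ a d : ℕ, 1 ≤ d ∧ (d : ℝ) ≤ Real.log a ^ B ∧ F = (range k).image (fun j => a + j * d)} := by
  classical
  obtain ⟨c, hc, hmany⟩ := primes_many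
  obtain ⟨B, hB⟩ := pos_ap 0 (k + 1) c (CT {0} + 1) (ρ / 2) hc (by have := CT_nonneg {0}; linarith) (by positivity)
  refine ⟨B, ?_⟩
  obtain ⟨x0, hx0⟩ := eventually_atTop.1 hB
  obtain ⟨N1, hN1⟩ := eventually_atTop.1 (hmany.and ((tendsto_natCast_atTop_atTop (R := ℝ)).eventually
    (eventually_ge_atTop x0)))
  have hbig : ∀ᶠ N : ℕ in atTop, 2 / ρ ≤ c * N / Real.log N := by
    have h1 := (isLittleO_log_rpow_atTop (show (0 : ℝ) < 1 by norm_num)).bound (show 0 < c / (2 / ρ) by positivity)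
    filter_upwards [tendsto_natCast_atTop_atTop.eventually h1, eventually_ge_atTop 3] with N h2 hN
    have hN3 : (3 : ℝ) ≤ N := by exact_mod_cast hN
    have hl : 0 < Real.log N := Real.log_pos (by linarith)
    rw [Real.norm_of_nonneg hl.le, Real.rpow_one, Real.norm_of_nonneg (by positivity)] at h2
    rw [le_div_iff₀ hl]
    calc 2 / ρ * Real.log N ≤ 2 / ρ * (c / (2 / ρ) * N) := by gcongr
      _ = c * N := by field_simp
  obtain ⟨N2, hN2⟩ := eventually_atTop.1 hbig
  refine ⟨max N1 (max N2 3), fun N hN A hA hAc => ?_⟩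
  have a1 : N1 ≤ N := (le_max_left _ _).trans hN
  have a2 : N2 ≤ N := ((le_max_left _ _).trans (le_max_right _ _)).trans hN
  have a3 : 3 ≤ N := ((le_max_right _ _).trans (le_max_right _ _)).trans hN
  have hN3 : (3 : ℝ) ≤ N := by exact_mod_cast a3
  obtain ⟨b1, b2⟩ := hN1 N a1
  have b3 := hN2 N a2
  -- remove the possible element `N`
  have hcard : (ρ / 2) * ((primesIn N N).card : ℝ) ≤ ((A.erase N).card : ℝ) := by
    have e1 : (A.card : ℝ) - 1 ≤ ((A.erase N).card : ℝ) := by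
      have : A.card ≤ (A.erase N).card + 1 := by
        rw [Finset.card_erase_eq_ite]
        split_ifs <;> omega
      have : (A.card : ℝ) ≤ ((A.erase N).card : ℝ) + 1 := by exact_mod_cast this
      linarith
    have e2 : ((primesIn N N).card : ℝ) ≤ ((sec {p | p.Prime} N).card : ℝ) := by
      exact_mod_cast card_le_card (primesIn_sec N)
    have e3 : ρ * ((primesIn N N).card : ℝ) ≤ A.card := le_trans (by gcongr) hAc
    have e4 : 1 ≤ ρ / 2 * ((primesIn N N).card : ℝ) := by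
      calc (1 : ℝ) = ρ / 2 * (2 / ρ) := by field_simp
        _ ≤ ρ / 2 * ((primesIn N N).card : ℝ) := by gcongr; linarith
    linarith
  have h := hx0 (N : ℝ) b2 N N le_rfl le_rfl (by
      rw [Real.sqrt_le_left (by linarith)]
      nlinarith) (fun i => i.elim0) (fun i => i.elim0) (by
      rw [Pool.Agent.U766.PW.pat0]
      linarith) (by rw [pos_zero, zero_add, pow_one]; exact b1) (A.erase N) (by
      rw [pos_zero]
      intro q hq
      rw [mem_erase] at hq
      have h1 := hA hq.2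
      rw [mem_sec] at h1
      unfold primesIn
      rw [mem_filter, mem_Ioc]
      exact ⟨by omega, h1.2⟩) (by rw [pos_zero]; exact hcard)
  obtain ⟨a, d, h1, h2, h3⟩ := h
  refine ⟨_, ⟨a, d, h1, ?_, rfl⟩, fun z hz => ?_⟩
  · refine h2.trans ?_
    have h4 := mem_of_mem_erase (h3 0 (by omega))
    have h5 := hA h4
    rw [mem_sec, zero_mul, add_zero] at h5
    have h6 : (N : ℝ) ≤ a := by exact_mod_cast h5.1.1
    have h7 : 0 ≤ Real.log N := Real.log_nonneg (by linarith)
    have h8 : Real.log N ≤ Real.log a := Real.log_le_log (by linarith) h6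
    gcongr
  · rw [mem_image] at hz
    obtain ⟨j, hj, rfl⟩ := hz
    exact mem_of_mem_erase (h3 j (by have := mem_range.1 hj; omega))

end Pool.Agent.U766.HO
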