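import Mathlib
import Pool.Agent.U766.HO.Host
import Pool.Agent.U766.OP.Sq

/-!
# Relatively dense subsets of thick hosts: most members are rich; popular elements
-/

set_option autoImplicit false

namespace Pool.Agent.U766.HO

open Finset Filter Topology
open Pool.Agent.U766.OP

/-- few exceptions, for multiples `j n` -/
theorem most (c δ : ℝ) (hfew : ∀ K : ℝ, 1 ≤ K → ∃ N0 : ℕ, ∀ N : ℕ,
    N0 ≤ N → K * (({n : ℕ | 1 ≤ n ∧ n ≤ N ∧ ¬ Rich c δ n}.ncard : ℕ) : ℝ) ≤ (N : ℝ) ^ (0.612 : ℝ))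
    (j : ℕ) (hj : 1 ≤ j) (S : Set ℕ) (hS : Thick S) (ρ : ℝ) (hρ : 0 < ρ) :
    ∃ N₀ : ℕ, ∀ N : ℕ, N₀ ≤ N → ∀ A B : Finset ℕ, A ⊆ sec S N → ρ * ((sec S N).card : ℝ) ≤ (A.card : ℝ) →
      B ⊆ A → (∀ n ∈ A, n ∉ B → ¬ Rich c δ (j * n)) → (A.card : ℝ) / 2 ≤ (B.card : ℝ) ∧ B.Nonempty := by
  classical
  obtain ⟨N1, hN1⟩ := hfew (4 * j / min ρ 1) (by
    rw [le_div_iff₀ (by positivity), one_mul]
    have h1 : (1 : ℝ) ≤ j := by exact_mod_cast hj
    have h2 := min_le_right ρ 1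
    linarith)
  obtain ⟨N2, hN2⟩ := eventually_atTop.1 hS
  refine ⟨max N1 (max N2 1), fun N hN A B hA hAc hBA hB => ?_⟩
  have a1 : N1 ≤ N := (le_max_left _ _).trans hN
  have a2 : N2 ≤ N := ((le_max_left _ _).trans (le_max_right _ _)).trans hN
  have a3 : 1 ≤ N := ((le_max_right _ _).trans (le_max_right _ _)).trans hN
  have hN1' : (1 : ℝ) ≤ N := by exact_mod_cast a3
  have hj1 : (1 : ℝ) ≤ j := by exact_mod_cast hj
  have hthick := hN2 N a2
  have hbad := hN1 (2 * j * N) (by nlinarith)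
  have hsub : ((A \ B).image (fun n => j * n) : Finset ℕ) ⊆
      (Set.Finite.toFinset ((Set.finite_Iic (2 * j * N)).subset (fun n hn => hn.2.1) :
        {n : ℕ | 1 ≤ n ∧ n ≤ 2 * j * N ∧ ¬ Rich c δ n}.Finite)) := by
    intro z hz
    rw [mem_image] at hz
    obtain ⟨n, hn, rfl⟩ := hz
    rw [Finset.mem_sdiff] at hn
    rw [Set.Finite.mem_toFinset]
    have h1 := mem_sec.1 (hA hn.1)
    refine ⟨by nlinarith [h1.1.1], ?_, hB n hn.1 hn.2⟩
    calc j * n ≤ j * (2 * N) := Nat.mul_le_mul_left _ h1.1.2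
      _ = 2 * j * N := by ring
  have hc1 : ((A \ B).card : ℝ) ≤ (({n : ℕ | 1 ≤ n ∧ n ≤ 2 * j * N ∧ ¬ Rich c δ n}.ncard : ℕ) : ℝ) := by
    have h2 := card_le_card hsub
    rw [card_image_of_injective _ (fun x y hxy => Nat.eq_of_mul_eq_mul_left (by omega) hxy)] at h2
    rw [Set.ncard_eq_toFinset_card _ ((Set.finite_Iic (2 * j * N)).subset (fun n hn => hn.2.1))]
    exact_mod_cast h2
  have hpow : ((2 * j * N : ℕ) : ℝ) ^ (0.612 : ℝ) ≤ 2 * j * (N : ℝ) ^ (0.612 : ℝ) := by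
    push_cast
    rw [Real.mul_rpow (by positivity) (by positivity)]
    apply mul_le_mul_of_nonneg_right _ (by positivity)
    calc (2 * (j : ℝ)) ^ (0.612 : ℝ) ≤ (2 * (j : ℝ)) ^ (1 : ℝ) :=
          Real.rpow_le_rpow_of_exponent_le (by linarith) (by norm_num)
      _ = 2 * j := Real.rpow_one _
  have hm0 : 0 < min ρ 1 := lt_min hρ one_pos
  have h3 : ((A \ B).card : ℝ) ≤ ρ / 2 * (N : ℝ) ^ (0.612 : ℝ) := by
    have h4 : 4 * (j : ℝ) / min ρ 1 * ((A \ B).card : ℝ) ≤ 2 * j * (N : ℝ) ^ (0.612 : ℝ) :=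
      (by gcongr : 4 * (j : ℝ) / min ρ 1 * ((A \ B).card : ℝ) ≤ _).trans (hbad.trans hpow)
    have h5 : 4 * (j : ℝ) * ((A \ B).card : ℝ) ≤ 2 * j * (N : ℝ) ^ (0.612 : ℝ) * min ρ 1 := by
      rw [div_mul_eq_mul_div, div_le_iff₀ hm0] at h4
      exact h4
    have h6 : 2 * (j : ℝ) * (N : ℝ) ^ (0.612 : ℝ) * min ρ 1 ≤ 2 * j * (N : ℝ) ^ (0.612 : ℝ) * ρ := by
      gcongr
      exact min_le_left _ _
    have h7 : (4 * (j : ℝ)) * ((A \ B).card : ℝ) ≤ (4 * (j : ℝ)) * (ρ / 2 * (N : ℝ) ^ (0.612 : ℝ)) := by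
      refine h5.trans (h6.trans (le_of_eq ?_))
      ring
    exact le_of_mul_le_mul_left h7 (by linarith)
  have h8 : ((A \ B).card : ℝ) ≤ (A.card : ℝ) / 2 := by
    calc ((A \ B).card : ℝ) ≤ ρ / 2 * (N : ℝ) ^ (0.612 : ℝ) := h3
      _ ≤ ρ / 2 * ((sec S N).card : ℝ) := by gcongr
      _ = (ρ * ((sec S N).card : ℝ)) / 2 := by ring
      _ ≤ (A.card : ℝ) / 2 := by gcongr
  have h9 : (A.card : ℝ) = ((A \ B).card : ℝ) + B.card := by
    rw [← Nat.cast_add, card_sdiff_add_card_eq_card hBA]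
  have h10 : (0 : ℝ) < A.card := by
    refine lt_of_lt_of_le ?_ hAc
    have : (0 : ℝ) < (N : ℝ) ^ (0.612 : ℝ) := Real.rpow_pos_of_pos (by linarith) _
    have h11 : (0 : ℝ) < ((sec S N).card : ℝ) := by linarith
    positivity
  refine ⟨by linarith, ?_⟩
  rw [← Finset.card_pos]
  have : (0 : ℝ) < B.card := by linarith
  exact_mod_cast this

/-- **the same element for a member of the family**: if most members of every relatively dense set have many good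
elements, then for many elements the set contains a member of the family for all members of which the element is good -/
theorem common {ι : Type} [DecidableEq ι] {S : Set ℕ} {𝓕 : Set (Finset ℕ)} {ρ e b : ℝ} (he : 0 < e) (hb : 0 < b)
    {N : ℕ} (hReg : ∀ A : Finset ℕ, A ⊆ sec S N → e / (4 * b) * ρ * ((sec S N).card : ℝ) ≤ (A.card : ℝ) → ∃ F ∈ 𝓕, F ⊆ A)
    {A A' : Finset ℕ} (hA : A ⊆ sec S N) (hAc : ρ * ((sec S N).card : ℝ) ≤ (A.card : ℝ)) (hA' : A' ⊆ A)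
    (hA'c : (A.card : ℝ) / 2 ≤ (A'.card : ℝ)) (hne : A'.Nonempty) (T : Finset ι) (G : ℕ → Finset ι)
    (hG : ∀ n ∈ A', G n ⊆ T) (hT : (T.card : ℝ) ≤ b) (hGe : ∀ n ∈ A', e ≤ ((G n).card : ℝ)) :
    ∃ T' : Finset ι, T' ⊆ T ∧ e / 2 ≤ (T'.card : ℝ) ∧ ∀ g ∈ T', ∃ F ∈ 𝓕, F ⊆ A ∧ ∀ n ∈ F, g ∈ G n := by
  have hpop := popular A' hne T G hG e b he.le hb hT hGe
  refine ⟨_, filter_subset _ _, hpop, fun g hg => ?_⟩
  rw [mem_filter] at hg
  obtain ⟨F, hF, hFA⟩ := hReg (A'.filter (fun n => g ∈ G n)) (((filter_subset _ _).trans hA').trans hA) (by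
    calc e / (4 * b) * ρ * ((sec S N).card : ℝ) = e / (4 * b) * (ρ * ((sec S N).card : ℝ)) := by ring
      _ ≤ e / (4 * b) * A.card := by gcongr
      _ = e / (2 * b) * (A.card / 2) := by ring
      _ ≤ e / (2 * b) * A'.card := by gcongr
      _ ≤ _ := hg.2)
  exact ⟨F, hF, (hFA.trans (filter_subset _ _)).trans hA', fun n hn => (mem_filter.1 (hFA hn)).2⟩

end Pool.Agent.U766.HO
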